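import Pool.Agent.Q120.NL.Stm

/-!
# A completed L-function has a zero
-/

set_option autoImplicit false

open Filter Topology Set Metric
open scoped ComplexConjugate

namespace Pool.Agent.Q176.NL

open Pool.Agent.Q286.GB Pool.Agent.Q120.NL

/-- a logarithm of an entire function without zeros -/
theorem exists_entire_log {f : ℂ → ℂ} (hf : Differentiable ℂ f) (h0 : ∀ z, f z ≠ 0) :
    ∃ h : ℂ → ℂ, Differentiable ℂ h ∧ ∀ z, Complex.exp (h z) = f z := by
  have hd : Differentiable ℂ (deriv f) := by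
    have h1 : AnalyticOnNhd ℂ f Set.univ := hf.differentiableOn.analyticOnNhd isOpen_univ
    intro z
    exact (h1.deriv z (mem_univ z)).differentiableAt
  have hg : Differentiable ℂ (fun z => deriv f z / f z) := hd.div hf h0
  obtain ⟨L, hL0, hL⟩ := hg.isExactOn_univ.with_val_at 0 (Complex.log (f 0))
  have hLd : Differentiable ℂ L := fun z => (hL z (mem_univ z)).differentiableAt
  refine ⟨L, hLd, ?_⟩
  have hF : ∀ z, HasDerivAt (fun z => f z * Complex.exp (-L z)) 0 z := by
    intro z
    have h1 : HasDerivAt f (deriv f z) z := (hf z).hasDerivAt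
    have h2 : HasDerivAt (fun z => Complex.exp (-L z)) (Complex.exp (-L z) * (-(deriv f z / f z))) z :=
      (hL z (mem_univ z)).neg.cexp
    have h3 := h1.mul h2
    refine h3.congr_deriv ?_
    have := h0 z
    field_simp
    ring
  intro z
  have h1 : f z * Complex.exp (-L z) = f 0 * Complex.exp (-L 0) :=
    is_const_of_deriv_eq_zero (fun w => (hF w).differentiableAt) (fun w => (hF w).deriv) z 0
  rw [hL0, Complex.exp_neg, Complex.exp_neg, Complex.exp_log (h0 0), mul_inv_cancel₀ (h0 0)] at h1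
  have h2 : Complex.exp (L z) ≠ 0 := Complex.exp_ne_zero _
  field_simp at h1
  exact h1.symm

/-- an entire function whose real part is bounded by every small multiple of `‖z‖²` is affine -/
theorem affine_of_re_le {h : ℂ → ℂ} (hh : Differentiable ℂ h)
    (hre : ∀ δ : ℝ, 0 < δ → ∃ A : ℝ, ∀ z, (h z).re ≤ A + δ * ‖z‖ ^ 2) :
    ∃ w : ℂ, ∀ z, h z = h 0 + w * z := by
  have hzero : ∀ c : ℂ, iteratedDeriv 2 h c = 0 := by
    intro c
    rw [← norm_le_zero_iff]
    refine le_of_forall_pos_le_add fun η hη => ?_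
    rw [zero_add]
    obtain ⟨A, hA⟩ := hre (η / 66) (by positivity)
    set δ := η / 66 with hδ
    have hδ0 : 0 < δ := by positivity
    set B : ℝ := 2 * (|A| + 1) + 3 * ‖h 0‖ with hB
    have hB0 : 0 < B := by positivity
    obtain ⟨R, hR⟩ : ∃ R : ℝ, 1 ≤ R ∧ ‖c‖ ≤ R ∧ B / δ ≤ R := ⟨max 1 (max ‖c‖ (B / δ)),
      le_max_left _ _, (le_max_left _ _).trans (le_max_right _ _),
      (le_max_right _ _).trans (le_max_right _ _)⟩
    obtain ⟨hR1, hRc, hRB⟩ := hR
    have hR0 : 0 < R := by linarith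
    set ρ : ℝ := R + ‖c‖ with hρ
    have hρ0 : 0 < ρ := by have := norm_nonneg c; linarith
    set M : ℝ := |A| + 1 + δ * (2 * ρ) ^ 2 with hM
    have hM0 : 0 < M := by positivity
    have hbd : ∀ z : ℂ, ‖z‖ ≤ ρ → ‖h z‖ ≤ 2 * M + 3 * ‖h 0‖ := by
      intro z hz
      have hz2 : z ∈ ball (0 : ℂ) (2 * ρ) := by
        rw [mem_ball_zero_iff]
        linarith
      have h1 := Complex.borelCaratheodory (R := 2 * ρ) hM0 hh.differentiableOn
        (fun x hx => by
          rw [mem_ball_zero_iff] at hx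
          have h2 := hA x
          have h3 : ‖x‖ ^ 2 ≤ (2 * ρ) ^ 2 := pow_le_pow_left₀ (norm_nonneg x) hx.le 2
          have h4 := mul_le_mul_of_nonneg_left h3 hδ0.le
          have h5 := le_abs_self A
          change (h x).re ≤ M
          rw [hM]
          linarith) (by positivity) hz2
      refine h1.trans ?_
      have h6 : 0 < 2 * ρ - ‖z‖ := by linarith
      have h7 : 2 * M * ‖z‖ / (2 * ρ - ‖z‖) ≤ 2 * M := by
        rw [div_le_iff₀ h6]
        nlinarith
      have h8 : ‖h 0‖ * (2 * ρ + ‖z‖) / (2 * ρ - ‖z‖) ≤ 3 * ‖h 0‖ := by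
        rw [div_le_iff₀ h6]
        have := norm_nonneg (h 0)
        nlinarith
      linarith
    have h9 := Complex.norm_iteratedDeriv_le_of_forall_mem_sphere_norm_le (c := c) (R := R) 2 hR0
      (f := h) (C := 2 * M + 3 * ‖h 0‖) hh.diffContOnCl (fun z hz => by
        refine hbd z ?_
        rw [mem_sphere_iff_norm] at hz
        have : ‖z‖ ≤ ‖z - c‖ + ‖c‖ := by
          have := norm_add_le (z - c) c
          rwa [sub_add_cancel] at this
        rw [hρ]
        linarith)
    refine h9.trans ?_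
    have h10 : (2 * M + 3 * ‖h 0‖) = B + 8 * δ * ρ ^ 2 := by
      rw [hM, hB]
      ring
    have h11 : ρ ^ 2 ≤ 4 * R ^ 2 := by
      have h12 : ρ ≤ 2 * R := by rw [hρ]; linarith
      have := pow_le_pow_left₀ hρ0.le h12 2
      linarith
    have h13 : B ≤ δ * R ^ 2 := by
      rw [div_le_iff₀ hδ0] at hRB
      have : R ≤ R ^ 2 := by nlinarith
      nlinarith
    rw [h10, div_le_iff₀ (by positivity)]
    have h14 : η = 66 * δ := by rw [hδ]; ring
    rw [h14]
    have h15 : ((Nat.factorial 2 : ℕ) : ℝ) = 2 := by norm_num [Nat.factorial]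
    rw [h15]
    have h16 := mul_le_mul_of_nonneg_left h11 hδ0.le
    nlinarith
  have hd : Differentiable ℂ (deriv h) := by
    have h1 : AnalyticOnNhd ℂ h Set.univ := hh.differentiableOn.analyticOnNhd isOpen_univ
    intro z
    exact (h1.deriv z (mem_univ z)).differentiableAt
  have hd2 : ∀ z, deriv (deriv h) z = 0 := by
    intro z
    have := hzero z
    rwa [iteratedDeriv_succ, iteratedDeriv_one] at this
  refine ⟨deriv h 0, fun z => ?_⟩
  have hc : ∀ z, deriv h z = deriv h 0 := fun z => is_const_of_deriv_eq_zero hd hd2 z 0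
  have hF : ∀ z, HasDerivAt (fun z => h z - deriv h 0 * z) 0 z := by
    intro z
    have h1 : HasDerivAt h (deriv h z) z := (hh z).hasDerivAt
    have h2 : HasDerivAt (fun z : ℂ => deriv h 0 * z) (deriv h 0 * 1) z :=
      (hasDerivAt_id z).const_mul _
    refine (h1.sub h2).congr_deriv ?_
    rw [hc z, mul_one, sub_self]
  have h3 : h z - deriv h 0 * z = h 0 - deriv h 0 * 0 :=
    is_const_of_deriv_eq_zero (fun w => (hF w).differentiableAt) (fun w => (hF w).deriv) z 0
  rw [mul_zero, sub_zero] at h3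
  rw [← h3]
  ring

theorem t_ZE : J_ZE := by
  intro O hX
  by_contra hno
  push Not at hno
  obtain ⟨h, hh, he⟩ := exists_entire_log O.diff hno
  have hn : ∀ z, ‖O.X z‖ = Real.exp (h z).re := by
    intro z
    rw [← he z, Complex.norm_exp]
  obtain ⟨w, hw⟩ := affine_of_re_le hh (by
    intro δ hδ
    obtain ⟨K, hK, hK2⟩ := O.slow δ hδ
    refine ⟨Real.log K, fun z => ?_⟩
    have h1 := hK2 z
    rw [hn z, ← Real.exp_log hK, ← Real.exp_add, Real.exp_le_exp] at h1
    exact h1)
  obtain ⟨ε, hε, hfe⟩ := O.fe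
  have h1 : ‖O.X 1‖ = ‖O.X 0‖ := by
    have h2 := congrArg norm (hfe 1)
    rw [norm_mul, hε, one_mul, RCLike.norm_conj, map_one, sub_self] at h2
    exact h2
  have h3 : w.re = 0 := by
    rw [hn, hn, hw 1] at h1
    have h4 := Real.exp_injective h1
    rw [Complex.add_re, mul_one] at h4
    linarith
  have h5 : (fun x : ℝ => ‖O.X x‖) = fun _ => Real.exp (h 0).re := by
    funext x
    rw [hn, hw, Complex.add_re, Complex.re_mul_ofReal, h3, zero_mul, add_zero]
  rw [h5] at hX
  exact not_tendsto_const_atTop _ _ hX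

end Pool.Agent.Q176.NL
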